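import Pool.Agent.H46.NF.L
import Pool.Agent.H28.T1.VQB

/-!
# NF, IRL2: `f` is irreducible over the dyadic completions
-/

set_option autoImplicit false
set_option linter.unusedSectionVars false
set_option linter.style.haveILetI false

namespace Pool.NF

open Polynomial Matrix NumberField IsDedekindDomain Pool.HYP Pool.TOW Pool.AVS Pool.T1

namespace IRL61

variable {K : Type} [Field K] [NumberField K] {L : Type} [Field L] {O : ValuationSubring L}
  {ι : K →+* L}

theorem int_mem (a : 𝓞 K) : ι (algebraMap (𝓞 K) K a) ∈ O := by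
  have h1 : IsIntegral ℤ (ι (algebraMap (𝓞 K) K a)) :=
    (RingOfIntegers.isIntegral_coe a).map ι.toIntAlgHom
  have h2 : IsIntegral O (ι (algebraMap (𝓞 K) K a)) := h1.tower_top
  obtain ⟨y, hy⟩ := IsIntegrallyClosed.isIntegral_iff.1 h2
  rw [← hy]
  exact y.2

/-- The prime below the valuation ring. -/
theorem exists_prime (h2 : (2 : L)⁻¹ ∉ O) : ∃ P : HeightOneSpectrum (𝓞 K),
    (2 : 𝓞 K) ∈ P.asIdeal ∧
    ∀ a : 𝓞 K, a ∈ P.asIdeal ↔ O.valuation (ι (algebraMap (𝓞 K) K a)) < 1 := by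
  classical
  let φ : 𝓞 K →+* O := (ι.comp (algebraMap (𝓞 K) K)).codRestrict O.toSubring
    (fun a => int_mem a)
  have hφ : ∀ a, ((φ a : O) : L) = ι (algebraMap (𝓞 K) K a) := fun a => rfl
  have hmem : ∀ a : 𝓞 K, a ∈ (IsLocalRing.maximalIdeal O).comap φ ↔
      O.valuation (ι (algebraMap (𝓞 K) K a)) < 1 := by
    intro a
    rw [Ideal.mem_comap, ← hφ a]
    exact ValuationSubring.valuation_lt_one_iff O (φ a)
  have h2mem : (2 : 𝓞 K) ∈ (IsLocalRing.maximalIdeal O).comap φ := by
    rw [hmem]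
    have e : ι (algebraMap (𝓞 K) K 2) = 2 := by rw [map_ofNat, map_ofNat]
    rw [e]
    by_contra hc
    apply h2
    rw [← ValuationSubring.valuation_le_one_iff, map_inv₀]
    have h3 : (1 : O.ValueGroup) ≤ O.valuation 2 := not_lt.1 hc
    exact inv_le_one_of_one_le₀ h3
  have hne : (IsLocalRing.maximalIdeal O).comap φ ≠ ⊥ := by
    intro h
    rw [h] at h2mem
    exact two_ne_zero (α := 𝓞 K) h2mem
  exact ⟨⟨(IsLocalRing.maximalIdeal O).comap φ, Ideal.comap_isPrime φ _, hne⟩, h2mem, hmem⟩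

end IRL61

open IRL61 in
/-- **IRL2.** -/
theorem irl2 : IRL2Stmt := by
  intro K _ _ L _ O ι hC h2 D Y hD f hf
  obtain ⟨P, hP2, hmem⟩ := exists_prime (K := K) (ι := ι) h2
  obtain ⟨hfm, hfd, -, -, hf'⟩ := hf
  obtain ⟨-, -, hDT', hD2⟩ := hD
  have hPT : P ∈ D.T' := hD2 P (Or.inl hP2)
  obtain ⟨hρm, hρd, hρi⟩ := hDT' P hPT
  have hz := hf' P hPT
  have hPmax : P.asIdeal.IsMaximal := P.isMaximal
  obtain ⟨ϖ, hϖ1, hϖ2⟩ := Ideal.exists_mem_pow_notMem_pow_succ P.asIdeal P.ne_bot P.isPrime.ne_top 1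
  rw [pow_one] at hϖ1
  obtain ⟨⟨OP, hOP, -, -⟩, -, -⟩ := vqb (𝓞 K) K P ϖ hϖ1 hϖ2
  have hcop : ∀ m : 𝓞 K, m ∉ P.asIdeal → O.valuation (ι (algebraMap (𝓞 K) K m)) = 1 := by
    intro m hm
    apply le_antisymm
    · exact (ValuationSubring.valuation_le_one_iff O _).2 (int_mem m)
    · exact not_lt.1 fun h => hm ((hmem m).2 h)
  -- elements of `K` in the valuation ring are regular at `P`
  have hreg : ∀ x : K, ι x ∈ O → x ∈ RP K P := by
    intro x hx
    by_contra hcon
    have h1 : x ∉ OP := by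
      intro h
      apply hcon
      rw [← hOP]
      exact h
    have h3 : x⁻¹ ∈ OP := (OP.mem_or_inv_mem x).resolve_left h1
    have h4 : x⁻¹ ∈ RP K P := by rw [← hOP]; exact h3
    obtain ⟨m, hm, a, ha⟩ := h4
    have hx0 : x ≠ 0 := by
      rintro rfl
      apply h1
      exact OP.zero_mem
    have hmx : algebraMap (𝓞 K) K m = algebraMap (𝓞 K) K a * x := by
      rw [← ha, mul_assoc, inv_mul_cancel₀ hx0, mul_one]
    by_cases haP : a ∈ P.asIdeal
    · have e1 := hcop m hm
      rw [hmx, map_mul, map_mul] at e1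
      have e2 := (hmem a).1 haP
      have e3 := (ValuationSubring.valuation_le_one_iff O _).2 hx
      have : O.valuation (ι (algebraMap (𝓞 K) K a)) * O.valuation (ι x) < 1 :=
        mul_lt_one_of_lt_of_le e2 e3
      rw [e1] at this
      exact lt_irrefl _ this
    · exact hcon ⟨a, haP, m, hmx.symm⟩
  have hM : ((fk K f).map ι).Monic := (hfm.map _).map _
  have hdeg : ((fk K f).map ι).natDegree = 3 := by
    rw [natDegree_map_eq_of_injective ι.injective, Monic.natDegree_map hfm, hfd]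
  rw [hM.irreducible_iff_roots_eq_zero_of_degree_le_three (by rw [hdeg]; norm_num)
    (by rw [hdeg])]
  by_contra hroots
  obtain ⟨r, hr⟩ := Multiset.exists_mem_of_ne_zero hroots
  have hr0 : ((fk K f).map ι).eval r = 0 := (mem_roots'.1 hr).2
  -- the root is in `O`
  have hrint : r ∈ O := by
    have h5 : IsIntegral O r := by
      obtain ⟨fO, hfO⟩ : ∃ fO : O[X], fO.map (algebraMap O L) = (fk K f).map ι ∧ fO.Monic := by
        let φ : 𝓞 K →+* O := (ι.comp (algebraMap (𝓞 K) K)).codRestrict O.toSubring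
          (fun a => int_mem a)
        refine ⟨f.map φ, ?_, hfm.map φ⟩
        rw [Polynomial.map_map, Polynomial.map_map]
        rfl
      refine ⟨fO, hfO.2, ?_⟩
      rw [← hfO.1, eval_map] at hr0
      exact hr0
    obtain ⟨y, hy⟩ := IsIntegrallyClosed.isIntegral_iff.1 h5
    rw [← hy]
    exact y.2
  have h2L : (2 : L) ≠ 0 := by
    intro h
    apply h2
    rw [h, _root_.inv_zero]
    exact O.zero_mem
  have hv2 : O.valuation (2 : L) < 1 := by
    have := (hmem 2).1 hP2
    rw [map_ofNat, map_ofNat] at this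
    exact this
  obtain ⟨x, hx⟩ := hC.dense r 2 h2L
  have hrx : O.valuation (r - ι x) < 1 := by
    have e1 := (ValuationSubring.valuation_le_one_iff O _).2 hx
    have e2 : r - ι x = (r - ι x) / 2 * 2 := by field_simp
    rw [e2, map_mul, mul_comm]
    exact mul_lt_one_of_lt_of_le hv2 e1
  have hxO : ι x ∈ O := by
    have e1 : ι x = r - (r - ι x) := by ring
    rw [e1]
    refine O.sub_mem hrint ?_
    exact (ValuationSubring.valuation_le_one_iff O _).1 hrx.le
  obtain ⟨m, hm, b, hb⟩ := hreg x hxO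
  -- an inverse of `m` modulo `P`
  obtain ⟨m', hm'⟩ : ∃ m' : 𝓞 K, 1 - m * m' ∈ P.asIdeal := by
    have hm0 : Ideal.Quotient.mk P.asIdeal m ≠ 0 :=
      fun h => hm (Ideal.Quotient.eq_zero_iff_mem.1 h)
    letI := Ideal.Quotient.field P.asIdeal
    obtain ⟨m', hm'⟩ := Ideal.Quotient.mk_surjective (Ideal.Quotient.mk P.asIdeal m)⁻¹
    refine ⟨m', ?_⟩
    rw [← Ideal.Quotient.eq_zero_iff_mem, map_sub, map_one, map_mul, hm',
      mul_inv_cancel₀ hm0, sub_self]
  set a : 𝓞 K := m' * b with ha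
  have hxa : O.valuation (ι (x - algebraMap (𝓞 K) K a)) < 1 := by
    have e1 : algebraMap (𝓞 K) K m * (x - algebraMap (𝓞 K) K a) =
        algebraMap (𝓞 K) K ((1 - m * m') * b) := by
      have e0 : algebraMap (𝓞 K) K ((1 - m * m') * b) =
          (1 - algebraMap (𝓞 K) K m * algebraMap (𝓞 K) K m') * algebraMap (𝓞 K) K b := by
        rw [map_mul, map_sub, map_one, map_mul]
      rw [e0, mul_sub, hb, ha, map_mul]
      ring
    have e2 : O.valuation (ι (algebraMap (𝓞 K) K ((1 - m * m') * b))) < 1 :=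
      (hmem _).1 (P.asIdeal.mul_mem_right b hm')
    rw [← e1, map_mul, map_mul, hcop m hm, one_mul] at e2
    exact e2
  have hra : O.valuation (r - ι (algebraMap (𝓞 K) K a)) < 1 := by
    have e1 : r - ι (algebraMap (𝓞 K) K a) = (r - ι x) + ι (x - algebraMap (𝓞 K) K a) := by
      rw [map_sub]; ring
    rw [e1]
    exact lt_of_le_of_lt (O.valuation.map_add _ _) (max_lt hrx hxa)
  -- `f(a)` is in `P`
  have hfa : f.eval a ∈ P.asIdeal := by
    rw [hmem]
    have e1 : ι (algebraMap (𝓞 K) K (f.eval a)) =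
        ((fk K f).map ι).eval (ι (algebraMap (𝓞 K) K a)) := by
      rw [eval_map, eval₂_hom, fk, eval_map, eval₂_hom]
    rw [e1]
    have e2 : ((fk K f).map ι).eval (ι (algebraMap (𝓞 K) K a)) =
        ((fk K f).map ι).eval (ι (algebraMap (𝓞 K) K a)) - ((fk K f).map ι).eval r := by
      rw [hr0, sub_zero]
    let φ : 𝓞 K →+* O := (ι.comp (algebraMap (𝓞 K) K)).codRestrict O.toSubring
      (fun a => int_mem a)
    have e3 : (fk K f).map ι = (f.map φ).map (algebraMap O L) := by
      rw [Polynomial.map_map, Polynomial.map_map]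
      rfl
    obtain ⟨A, hA⟩ : ∃ A : O, (A : L) = ι (algebraMap (𝓞 K) K a) := ⟨φ a, rfl⟩
    obtain ⟨q, hq⟩ := sub_dvd_eval_sub A ⟨r, hrint⟩ (f.map φ)
    have e4 : ((fk K f).map ι).eval (ι (algebraMap (𝓞 K) K a)) - ((fk K f).map ι).eval r =
        (ι (algebraMap (𝓞 K) K a) - r) * (q : L) := by
      have h6 := congrArg (algebraMap O L) hq
      rw [_root_.map_sub, _root_.map_mul, _root_.map_sub] at h6
      rw [e3, ← hA]
      have h7 : ∀ z : O, ((f.map φ).map (algebraMap O L)).eval (z : L) =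
          algebraMap O L ((f.map φ).eval z) := by
        intro z
        rw [eval_map, show (z : L) = algebraMap O L z from rfl, eval₂_hom]
      have h8 := h7 ⟨r, hrint⟩
      rw [h7 A, h8]
      exact h6
    rw [e2, e4, map_mul]
    have e5 : O.valuation (ι (algebraMap (𝓞 K) K a) - r) < 1 := by
      rw [← Valuation.map_neg, neg_sub]
      exact hra
    exact mul_lt_one_of_lt_of_le e5 ((ValuationSubring.valuation_le_one_iff O _).2 q.2)
  -- so `ρ` has a root modulo `P`
  letI := Ideal.Quotient.field P.asIdeal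
  have hroot : (md P.asIdeal (D.ρ P)).eval (Ideal.Quotient.mk P.asIdeal a) = 0 := by
    have e1 : md P.asIdeal (D.ρ P) = md P.asIdeal f := by
      ext i
      have := hz i
      rw [coeff_map, coeff_map]
      rw [coeff_sub] at this
      exact (Ideal.Quotient.eq.2 (by rw [← neg_sub]; exact neg_mem this))
    rw [e1, md, eval_map, eval₂_hom, Ideal.Quotient.eq_zero_iff_mem]
    exact hfa
  have hdegρ : (md P.asIdeal (D.ρ P)).natDegree = 3 := by
    rw [Monic.natDegree_map hρm, hρd]
  have := degree_eq_one_of_irreducible_of_root hρi hroot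
  rw [degree_eq_natDegree (hρi.ne_zero), hdegρ] at this
  norm_num at this

end Pool.NF
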